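import Pool.Agent.FS32.Frame

/-!
# Danzer's problem and generalized arithmetic progressions: dual vectors

`Wide P V`: in every frame and every box of area larger than `V` there is a nonzero vector of `P`.
`Dual W g ε`: the vectors `w` of norm at least `W` for which every `w · g j` is within `ε j` of an
integer. Minkowski's linear forms theorem in dimension `2 + m`.
-/

set_option autoImplicit false

open Metric Set MeasureTheory

namespace Pool.Agent.DZ62

open Pool.Agent.H18.Danzer Pool.Agent.FS32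

/-- Every box of area larger than `V`, in any position, contains a nonzero vector of `P`. -/
def Wide (P : Set Plane) (V : ℝ) : Prop :=
  ∀ u : Plane, ‖u‖ = 1 → ∀ X Y : ℝ, 0 < X → 0 < Y → V < X * Y →
    ∃ w ∈ P, |dot u w| < X ∧ |wedge u w| < Y

/-- The vectors of norm at least `W` which are almost integral on all `g j`. -/
def Dual {m : ℕ} (W : ℝ) (g : Fin m → Plane) (ε : Fin m → ℝ) : Set Plane :=
  {w | W ≤ ‖w‖ ∧ ∀ j, ∃ z : ℤ, |dot w (g j) - z| ≤ ε j}

/-- Minkowski's linear forms theorem for an arbitrary finite index type. -/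
theorem minkowski_index {ι : Type} [Fintype ι] [DecidableEq ι] (A : Matrix ι ι ℝ)
    (hA : A.det ≠ 0) (r : ι → ℝ) (hr : ∀ i, 0 < r i) (h : |A.det| < ∏ i, r i) :
    ∃ y : ι → ℤ, y ≠ 0 ∧ ∀ i, |∑ j, A i j * (y j : ℝ)| < r i := by
  obtain ⟨e, -⟩ : ∃ e : ι ≃ Fin (Fintype.card ι), True := ⟨Fintype.equivFin ι, trivial⟩
  have hdet : (Matrix.reindex e e A).det = A.det := Matrix.det_reindex_self e A
  obtain ⟨y, hy0, hy⟩ := Pool.Agent.SSS.minkowski_linear_forms (Matrix.reindex e e A)
    (by rw [hdet]; exact hA) (fun i => r (e.symm i)) (fun i => hr _) (by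
      rw [hdet, ← e.prod_comp (fun i => r (e.symm i))]
      simpa using h)
  refine ⟨fun i => y (e i), ?_, ?_⟩
  · intro h0
    apply hy0
    ext i
    have h1 := congrFun h0 (e.symm i)
    simpa using h1
  · intro i
    have h1 := hy (e i)
    have h2 : (Matrix.reindex e e A).mulVec (fun j => (y j : ℝ)) (e i)
        = ∑ j, A i j * (y (e j) : ℝ) := by
      rw [Matrix.mulVec, dotProduct, ← e.sum_comp]
      refine Finset.sum_congr rfl fun j _ => ?_
      rw [Matrix.reindex_apply, Matrix.submatrix_apply, Equiv.symm_apply_apply,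
        Equiv.symm_apply_apply]
    rw [h2, Equiv.symm_apply_apply] at h1
    exact h1

theorem wide_dual {m : ℕ} {W V : ℝ} (hW : 0 < W) (g : Fin m → Plane) (ε : Fin m → ℝ)
    (hε : ∀ j, 0 < ε j) (hε1 : ∀ j, ε j ≤ 1) (h : W ^ 2 ≤ V * ∏ j, ε j) :
    Wide (Dual W g ε) V := by
  intro u hu X Y hX hY hXY
  have hu2 : u 0 ^ 2 + u 1 ^ 2 = 1 := by rw [← norm_sq, hu]; norm_num
  set A : Matrix (Fin 2) (Fin 2) ℝ := !![W * u 0, W * u 1; -(W * u 1), W * u 0] with hA
  set C : Matrix (Fin m) (Fin 2) ℝ := Matrix.of fun j k => W * g j k with hC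
  have hdA : A.det = W ^ 2 := by
    rw [hA, Matrix.det_fin_two_of]
    linear_combination W ^ 2 * hu2
  have hdet : (Matrix.fromBlocks A 0 C (1 : Matrix (Fin m) (Fin m) ℝ)).det = W ^ 2 := by
    rw [Matrix.det_fromBlocks_zero₁₂, Matrix.det_one, mul_one, hdA]
  have hprod : 0 < ∏ j, ε j := Finset.prod_pos fun j _ => hε j
  obtain ⟨y, hy0, hy⟩ := minkowski_index (Matrix.fromBlocks A 0 C (1 : Matrix (Fin m) (Fin m) ℝ))
    (by rw [hdet]; positivity) (Sum.elim ![X, Y] ε)
    (by
      rintro (i | i)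
      · fin_cases i
        · simpa using hX
        · simpa using hY
      · simpa using hε i)
    (by
      rw [hdet, Fintype.prod_sum_type, abs_of_nonneg (by positivity)]
      simp only [Sum.elim_inl, Sum.elim_inr, Fin.prod_univ_two, Matrix.cons_val_zero,
        Matrix.cons_val_one]
      calc W ^ 2 ≤ V * ∏ j, ε j := h
        _ < X * Y * ∏ j, ε j := by gcongr)
  have h0 := hy (Sum.inl 0)
  have h1 := hy (Sum.inl 1)
  have h2 := fun j => hy (Sum.inr j)
  simp only [Fintype.sum_sum_type, Matrix.fromBlocks_apply₁₁, Matrix.fromBlocks_apply₁₂,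
    Matrix.zero_apply, zero_mul, Finset.sum_const_zero, add_zero, Fin.sum_univ_two,
    Sum.elim_inl, Matrix.fromBlocks_apply₂₁, Matrix.fromBlocks_apply₂₂, Sum.elim_inr] at h0 h1 h2
  have hone : ∀ j, ∑ k, (1 : Matrix (Fin m) (Fin m) ℝ) j k * (y (Sum.inr k) : ℝ)
      = y (Sum.inr j) := by
    intro j
    rw [Finset.sum_eq_single j]
    · rw [Matrix.one_apply_eq, one_mul]
    · intro k _ hk
      rw [Matrix.one_apply_ne' hk, zero_mul]
    · intro hj
      exact absurd (Finset.mem_univ _) hj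
  obtain ⟨w, hw⟩ : ∃ w : Plane, w = !₂[W * (y (Sum.inl 0) : ℝ), W * (y (Sum.inl 1) : ℝ)] :=
    ⟨_, rfl⟩
  have hw0 : w 0 = W * (y (Sum.inl 0) : ℝ) := by rw [hw]; rfl
  have hw1 : w 1 = W * (y (Sum.inl 1) : ℝ) := by rw [hw]; rfl
  have hdotg : ∀ j, |dot w (g j) + y (Sum.inr j)| < ε j := by
    intro j
    have h3 := h2 j
    rw [hone j] at h3
    have e : dot w (g j) + y (Sum.inr j)
        = C j 0 * (y (Sum.inl 0) : ℝ) + C j 1 * (y (Sum.inl 1) : ℝ) + y (Sum.inr j) := by
      unfold dot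
      rw [hw0, hw1, hC, Matrix.of_apply, Matrix.of_apply]
      ring
    rw [e]
    exact h3
  have hne : y (Sum.inl 0) ≠ 0 ∨ y (Sum.inl 1) ≠ 0 := by
    by_contra hcon
    push Not at hcon
    apply hy0
    funext i
    rcases i with i | j
    · fin_cases i
      · exact hcon.1
      · exact hcon.2
    · have h3 := hdotg j
      have h4 : dot w (g j) = 0 := by
        unfold dot
        rw [hw0, hw1, hcon.1, hcon.2]
        simp
      rw [h4, zero_add] at h3
      have h5 : |(y (Sum.inr j) : ℝ)| < 1 := lt_of_lt_of_le h3 (hε1 j)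
      have h6 : |y (Sum.inr j)| < 1 := by exact_mod_cast h5
      exact Int.abs_lt_one_iff.1 h6
  refine ⟨w, ⟨?_, fun j => ⟨- y (Sum.inr j), ?_⟩⟩, ?_, ?_⟩
  · have hsq : W ^ 2 ≤ ‖w‖ ^ 2 := by
      rw [norm_sq, hw0, hw1]
      have h3 : (1 : ℝ) ≤ (y (Sum.inl 0) : ℝ) ^ 2 + (y (Sum.inl 1) : ℝ) ^ 2 := by
        have h4 : 1 ≤ y (Sum.inl 0) ^ 2 + y (Sum.inl 1) ^ 2 := by
          rcases hne with hn | hn
          · have : 0 < y (Sum.inl 0) ^ 2 := by positivity
            nlinarith [sq_nonneg (y (Sum.inl 1))]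
          · have : 0 < y (Sum.inl 1) ^ 2 := by positivity
            nlinarith [sq_nonneg (y (Sum.inl 0))]
        exact_mod_cast h4
      have h5 : 0 < W ^ 2 := by positivity
      nlinarith
    exact le_of_sq_le_sq hsq (norm_nonneg _)
  · have h3 := hdotg j
    push_cast
    rw [sub_neg_eq_add]
    exact h3.le
  · have e : dot u w = A 0 0 * (y (Sum.inl 0) : ℝ) + A 0 1 * (y (Sum.inl 1) : ℝ) := by
      unfold dot
      rw [hw0, hw1, hA]
      simp
      ring
    rw [e]
    simpa using h0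
  · have e : wedge u w = A 1 0 * (y (Sum.inl 0) : ℝ) + A 1 1 * (y (Sum.inl 1) : ℝ) := by
      unfold wedge
      rw [hw0, hw1, hA]
      simp
      ring
    rw [e]
    simpa using h1

end Pool.Agent.DZ62
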