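import Pool.Agent.DZ62.Final

/-!
# Danzer's problem and generalized arithmetic progressions: the main theorem
-/

set_option autoImplicit false

open Metric Set MeasureTheory

namespace Pool.Agent.DZ62

open Pool.Agent.H18.Danzer Pool.Agent.FS32

lemma dot_frame {u : Plane} (hu : ‖u‖ = 1) (w z : Plane) :
    dot w z = dot u w * dot u z + wedge u w * wedge u z := by
  have h1 : dot u w * dot u z + wedge u w * wedge u z = ‖u‖ ^ 2 * dot w z := by
    rw [norm_sq]; unfold dot wedge; ring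
  rw [h1, hu]; ring

lemma dot_sum {m : ℕ} (w : Plane) (n : Fin m → ℤ) (g : Fin m → Plane) :
    dot w (∑ j, (n j : ℝ) • g j) = ∑ j, (n j : ℝ) * dot w (g j) := by
  have h1 : ∀ s : Finset (Fin m), dot w (∑ j ∈ s, (n j : ℝ) • g j) =
      ∑ j ∈ s, (n j : ℝ) * dot w (g j) := by
    intro s
    induction s using Finset.induction_on with
    | empty => simp [dot]
    | insert a s ha ih =>
      rw [Finset.sum_insert ha, Finset.sum_insert ha, ← ih]
      unfold dot; simp; ring
  exact h1 _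

/-- A point of a progression is almost integral. -/
lemma phase_point {m : ℕ} {q : ℝ} (hq : 0 < q) (w c p : Plane) (g : Fin m → Plane)
    (N : Fin m → ℕ) (hN : ∀ j, 1 ≤ N j)
    (hw : ∀ j, ∃ z : ℤ, |dot w (g j) - z| ≤ 1 / (16 * q * m * N j))
    (n : Fin m → ℤ) (hn : ∀ j, |n j| ≤ N j) (hp : p = c + ∑ j, (n j : ℝ) • g j) :
    ∃ z : ℤ, |dot w (p - c) - z| ≤ 1 / (16 * q) := by
  choose z hz using hw
  refine ⟨∑ j, n j * z j, ?_⟩
  have h1 : dot w (p - c) = ∑ j, (n j : ℝ) * dot w (g j) := by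
    rw [hp, add_sub_cancel_left, dot_sum]
  have h2 : dot w (p - c) - ((∑ j, n j * z j : ℤ) : ℝ) =
      ∑ j, (n j : ℝ) * (dot w (g j) - z j) := by
    rw [h1]; push_cast
    rw [← Finset.sum_sub_distrib]
    exact Finset.sum_congr rfl fun j _ => by ring
  rw [h2]
  refine (Finset.abs_sum_le_sum_abs _ _).trans ?_
  rcases Nat.eq_zero_or_pos m with h0 | h0
  · subst h0
    simp only [Finset.univ_eq_empty, Finset.sum_empty]
    positivity
  · have hm : (0 : ℝ) < m := by exact_mod_cast h0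
    have h3 : ∀ j ∈ (Finset.univ : Finset (Fin m)), |(n j : ℝ) * (dot w (g j) - z j)| ≤
        1 / (16 * q * m) := by
      intro j _
      have hNj : (0 : ℝ) < N j := by exact_mod_cast hN j
      have h4 : |(n j : ℝ)| ≤ N j := by
        have := hn j
        have h5 : ((|n j| : ℤ) : ℝ) ≤ ((N j : ℤ) : ℝ) := by exact_mod_cast this
        simpa using h5
      rw [abs_mul]
      calc |(n j : ℝ)| * |dot w (g j) - z j| ≤ N j * (1 / (16 * q * m * N j)) :=
            mul_le_mul h4 (hz j) (abs_nonneg _) hNj.le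
        _ = 1 / (16 * q * m) := by field_simp
    refine (Finset.sum_le_sum h3).trans ?_
    rw [Finset.sum_const, Finset.card_univ, Fintype.card_fin, nsmul_eq_mul]
    apply le_of_eq
    field_simp

/-- Sets covered by `k + 1` generalized arithmetic progressions of formal size at most about
`r ^ 2`, with `T` translates each, miss a convex set of area `A` in every ball of radius `r`. -/
theorem progressions (k T : ℕ) (hT : 1 ≤ T) (A L r q : ℝ) (hA : 1 ≤ A) (hL : 1 ≤ L)
    (hq : q = (k + 1) * T)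
    (hr : 64 * q * A * L * (10 ^ 4 * q ^ 2 * A * L ^ 2) ^ (2 ^ k - 1) ≤ r)
    (x : Plane) (S E : Set Plane) (hE : (E ∩ closedBall x r).Finite)
    (hEn : ((E ∩ closedBall x r).ncard : ℝ) ≤ r ^ 2 / (4 * A))
    (m : Fin (k + 1) → ℕ) (c : Fin (k + 1) → Fin T → Plane) (g : ∀ i, Fin (m i) → Plane)
    (N : ∀ i, Fin (m i) → ℕ) (hN : ∀ i j, 1 ≤ N i j)
    (hsize : ∀ i, 4 * ∏ j, (16 * q * m i * N i j) ≤ (L * r) ^ 2)
    (hS : ∀ p ∈ S ∩ closedBall x r, p ∈ E ∨ ∃ i t, ∃ n : Fin (m i) → ℤ,
      (∀ j, |n j| ≤ N i j) ∧ p = c i t + ∑ j, (n j : ℝ) • g i j) :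
    ∃ K : Set Plane, Convex ℝ K ∧ IsCompact K ∧ volume K = ENNReal.ofReal A ∧
      K ⊆ closedBall x r ∧ Disjoint K S := by
  classical
  have hA0 : 0 < A := by linarith
  have hL0 : 0 < L := by linarith
  have hT' : (1 : ℝ) ≤ T := by exact_mod_cast hT
  have hk0 : (0 : ℝ) ≤ k := by positivity
  have hq1 : 1 ≤ q := by rw [hq]; nlinarith
  have hq0 : 0 < q := by linarith
  have hq2 : 1 ≤ q ^ 2 := one_le_pow₀ hq1
  have hqA : 1 ≤ q ^ 2 * A := by nlinarith
  have hL2 : 1 ≤ L ^ 2 := one_le_pow₀ hL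
  obtain ⟨η, hη⟩ : ∃ η : ℝ, η = 1 / (256 * q ^ 2 * A) := ⟨_, rfl⟩
  have hη0 : 0 < η := by rw [hη]; positivity
  have hη1 : η ≤ 1 := by
    rw [hη, div_le_one (by positivity)]
    nlinarith
  have hηL : η ≤ L ^ 2 := hη1.trans hL2
  obtain ⟨Q, hQ⟩ : ∃ Q : ℝ, Q = 10 ^ 4 * q ^ 2 * A * L ^ 2 := ⟨_, rfl⟩
  rw [← hQ] at hr
  have hQη : 36 * L ^ 2 / η ≤ Q := by
    have e : 36 * L ^ 2 / η = 9216 * (q ^ 2 * A * L ^ 2) := by
      rw [hη]; field_simp; ring
    have e' : Q = 10 ^ 4 * (q ^ 2 * A * L ^ 2) := by rw [hQ]; ring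
    have h0 : 0 < q ^ 2 * A * L ^ 2 := by positivity
    rw [e, e']; linarith
  have hQ1 : 1 ≤ Q := by
    have e' : Q = 10 ^ 4 * (q ^ 2 * A * L ^ 2) := by rw [hQ]; ring
    have h0 : 1 ≤ q ^ 2 * A * L ^ 2 := by nlinarith
    rw [e']; linarith
  have hr1 : 64 * q * A * L ≤ r := by
    refine le_trans ?_ hr
    have h1 : 1 ≤ Q ^ (2 ^ k - 1) := one_le_pow₀ hQ1
    have h2 : 0 < 64 * q * A * L := by positivity
    nlinarith
  have hr64 : 64 ≤ r := by
    refine le_trans ?_ hr1
    have h1 : 1 ≤ q * A := by nlinarith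
    have h2 : 1 ≤ q * A * L := by nlinarith
    linarith
  have hr0 : 0 < r := by linarith
  -- the dual vectors
  have hm0 : ∀ i (j : Fin (m i)), (0 : ℝ) < m i := fun i j => by
    exact_mod_cast (Nat.zero_le _).trans_lt j.2
  have hN0 : ∀ i (j : Fin (m i)), (1 : ℝ) ≤ N i j := fun i j => by exact_mod_cast hN i j
  have hpos : ∀ i (j : Fin (m i)), 1 ≤ 16 * q * m i * N i j := by
    intro i j
    have h1 : (1 : ℝ) ≤ m i := by exact_mod_cast (Nat.succ_le_of_lt ((Nat.zero_le _).trans_lt j.2))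
    have h2 := hN0 i j
    have h3 : 1 ≤ q * m i := by nlinarith
    have h4 : 1 ≤ q * m i * N i j := by nlinarith
    linarith
  have hwide : ∀ i, Wide (Dual (1 / (r / 2)) (g i) fun j => 1 / (16 * q * m i * N i j))
      (L ^ 2) := by
    intro i
    refine wide_dual (by positivity) (g i) _ (fun j => ?_) (fun j => ?_) ?_
    · have := hpos i j
      positivity
    · have := hpos i j
      rw [div_le_one (by linarith)]
      exact this
    · have h1 : 0 < ∏ j, (16 * q * m i * N i j) :=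
        Finset.prod_pos fun j _ => lt_of_lt_of_le one_pos (hpos i j)
      have h2 : ∏ j, (1 / (16 * q * m i * (N i j : ℝ))) = 1 / ∏ j, (16 * q * m i * N i j) := by
        rw [Finset.prod_div_distrib, Finset.prod_const_one]
      rw [h2]
      have h3 := hsize i
      have e1 : (1 / (r / 2)) ^ 2 = 4 / r ^ 2 := by field_simp; norm_num
      rw [e1, mul_one_div, div_le_div_iff₀ (by positivity) h1]
      have e2 : (L * r) ^ 2 = L ^ 2 * r ^ 2 := by ring
      rw [← e2]
      exact h3
  obtain ⟨u, M, hu, hLM, hMQ, hw⟩ := frameQ k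
    (fun i => Dual (1 / (r / 2)) (g i) fun j => 1 / (16 * q * m i * N i j)) L η hL0 hη0 hηL
    hwide (fun i h => by
      have h1 : 1 / (r / 2) ≤ ‖(0 : Plane)‖ := h.1
      rw [norm_zero] at h1
      have : 0 < 1 / (r / 2) := by positivity
      linarith)
  choose w hwP hw1 hw2 using hw
  have hM0 : 0 < M := by linarith
  obtain ⟨h, hh⟩ : ∃ h : ℝ, h = 1 / (32 * q * M) := ⟨_, rfl⟩
  obtain ⟨l, hl⟩ : ∃ l : ℝ, l = M / (32 * q * η) := ⟨_, rfl⟩
  have hh0 : 0 < h := by rw [hh]; positivity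
  have hl0 : 0 < l := by rw [hl]; positivity
  have hhr : h ≤ r / 4 := by
    have h1 : h ≤ 1 := by
      rw [hh, div_le_one (by positivity)]
      have h1 : 1 ≤ q * M := by nlinarith
      linarith
    linarith
  have hlr : l ≤ r / 4 := by
    have e : l = 8 * q * A * M := by
      rw [hl, hη]; field_simp; ring
    rw [e]
    have h1 : M ≤ 2 * L * Q ^ (2 ^ k - 1) := hMQ.trans
      (mul_le_mul_of_nonneg_left (pow_le_pow_left₀ (by positivity) hQη _) (by positivity))
    have h2 : 8 * q * A * M ≤ 8 * q * A * (2 * L * Q ^ (2 ^ k - 1)) :=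
      mul_le_mul_of_nonneg_left h1 (by positivity)
    have h3 : 8 * q * A * (2 * L * Q ^ (2 ^ k - 1)) =
        (64 * q * A * L * Q ^ (2 ^ k - 1)) / 4 := by ring
    linarith
  obtain ⟨K, hK⟩ : ∃ K : Set Plane, K = box u (-h) h (-l) l := ⟨_, rfl⟩
  have hKb : K ⊆ closedBall (0 : Plane) (h + l) := by
    rw [hK]; exact box_subset_closedBall hu hh0.le hl0.le
  have hKclosed : IsClosed K := by rw [hK]; exact isClosed_box _ _ _ _ _
  have hKconv : Convex ℝ K := by rw [hK]; exact convex_box _ _ _ _ _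
  have hKvol : volume K = ENNReal.ofReal A := by
    rw [hK, volume_box u hu, ← ENNReal.ofReal_mul (by linarith)]
    congr 1
    rw [hh, hl, hη]; field_simp; ring
  have hcard : (Fintype.card (Fin (k + 1) × Fin T) : ℝ) ≤ q := by
    rw [Fintype.card_prod, Fintype.card_fin, Fintype.card_fin, hq]
    push_cast
    exact le_rfl
  obtain ⟨y, hy, hyE, hyc⟩ := exists_centre x hr0 hA0 (ρ := h + l) (by linarith) K E hKb
    hKclosed.measurableSet hKvol hE hEn (fun i : Fin (k + 1) × Fin T => c i.1 i.2)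
    (fun i => w i.1) hq1 hcard (fun i => (hwP i.1).1)
  have hKx : (fun z : Plane => z - y) ⁻¹' K ⊆ closedBall x r := by
    intro z hz
    have h1 := hKb hz
    rw [mem_closedBall_zero_iff] at h1
    rw [mem_closedBall, dist_eq_norm] at hy ⊢
    calc ‖z - x‖ = ‖(z - y) + (y - x)‖ := by congr 1; abel
      _ ≤ ‖z - y‖ + ‖y - x‖ := norm_add_le _ _
      _ ≤ r := by linarith
  refine ⟨(fun z : Plane => z - y) ⁻¹' K, ?_, ?_, ?_, hKx, ?_⟩
  · have h1 := hKconv.translate_preimage_right (-y)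
    have h2 : (fun z : Plane => z - y) = fun z => -y + z := by
      funext z; exact sub_eq_neg_add z y
    rw [h2]; exact h1
  · exact isCompact_of_isClosed_isBounded (hKclosed.preimage (continuous_sub_right y))
      (isBounded_closedBall.subset hKx)
  · rw [(measurePreserving_sub_right volume y).measure_preimage
      hKclosed.measurableSet.nullMeasurableSet, hKvol]
  · rw [Set.disjoint_left]
    intro z hz hzS
    rcases hS z ⟨hzS, hKx hz⟩ with hzE | ⟨i, t, n, hn, hzp⟩
    · exact hyE z hzE hz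
    · obtain ⟨a, ha⟩ := phase_point hq0 (w i) (c i t) z (g i) (N i) (hN i) (hwP i).2 n hn hzp
      have h1 := hyc (i, t) a
      have hz' : z - y ∈ box u (-h) h (-l) l := by rw [← hK]; exact hz
      have h2 : |dot (w i) (z - y)| ≤ 1 / (16 * q) := by
        rw [dot_frame hu]
        refine (abs_add_le _ _).trans ?_
        rw [abs_mul, abs_mul]
        have b1 : |dot u (z - y)| ≤ h := abs_le.2 hz'.1
        have b2 : |wedge u (z - y)| ≤ l := abs_le.2 hz'.2
        calc |dot u (w i)| * |dot u (z - y)| + |wedge u (w i)| * |wedge u (z - y)|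
            ≤ M * h + η / M * l := add_le_add
              (mul_le_mul (hw1 i) b1 (abs_nonneg _) hM0.le)
              (mul_le_mul (hw2 i) b2 (abs_nonneg _) (by positivity))
          _ = 1 / (16 * q) := by
            rw [hh, hl]; field_simp; ring
      have h3 : dot (w i) (y - c i t) - a =
          (dot (w i) (z - c i t) - a) - dot (w i) (z - y) := by
        unfold dot; simp; ring
      have h4 : |dot (w i) (y - c i t) - a| ≤ 1 / (8 * q) := by
        rw [h3]
        refine (abs_sub _ _).trans ((add_le_add ha h2).trans ?_)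
        apply le_of_eq
        field_simp
        norm_num
      exact absurd h1 (not_lt.2 h4)

end Pool.Agent.DZ62
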