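import Pool.Agent.DZ62.Phase
import Pool.Agent.FS32.Finite

/-!
# Danzer's problem and generalized arithmetic progressions: a good centre
-/

set_option autoImplicit false

open Metric Set MeasureTheory

namespace Pool.Agent.DZ62

open Pool.Agent.H18.Danzer Pool.Agent.FS32

/-- A good centre: outside all bad sets and such that the translate of `K` misses `E`. -/
theorem exists_centre5 {ι : Type*} [Fintype ι] (x : Plane) {r A ρ : ℝ} (hr : 0 < r) (hA : 0 < A)
    (hρ : ρ ≤ r / 2) (K E : Set Plane) (hK : K ⊆ closedBall 0 ρ) (hKm : MeasurableSet K)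
    (hKv : volume K = ENNReal.ofReal A) (hE : (E ∩ closedBall x r).Finite)
    (hEn : ((E ∩ closedBall x r).ncard : ℝ) ≤ r ^ 2 / (4 * A)) (c w : ι → Plane) {q : ℝ}
    (hq : 1 ≤ q) (hq' : (Fintype.card ι : ℝ) ≤ q) (hw : ∀ i, 1 / (r / 2) ≤ ‖w i‖) :
    ∃ y ∈ closedBall x (r / 2), (∀ p ∈ E, p - y ∉ K) ∧
      ∀ i, ∀ z : ℤ, 1 / (8 * q) < |dot (w i) (y - c i) - z| := by
  classical
  by_contra hno
  push Not at hno
  have hq0 : 0 < q := by linarith
  have hd : 0 < 1 / (8 * q) := by positivity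
  have hd1 : 1 / (8 * q) ≤ 1 / 8 := one_div_le_one_div_of_le (by norm_num) (by linarith)
  obtain ⟨B, hB⟩ : ∃ B : ι → Set Plane, B = fun i => {y : Plane | y ∈ closedBall x (r / 2) ∧
      ∃ z : ℤ, |dot (w i) (y - c i) - z| ≤ 1 / (8 * q)} := ⟨_, rfl⟩
  have hBv : ∀ i, volume (B i) ≤ ENNReal.ofReal (13 * (1 / (8 * q)) * (r / 2) ^ 2) := by
    intro i
    rw [hB]
    exact volume_bad x (c i) (w i) (by linarith) hd hd1 (hw i)
  have hcover : closedBall x (r / 2) ⊆ (⋃ p ∈ hE.toFinset, {y : Plane | p - y ∈ K}) ∪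
      ⋃ i ∈ (Finset.univ : Finset ι), B i := by
    intro y hy
    by_cases h : ∃ p ∈ E, p - y ∈ K
    · left
      obtain ⟨p, hp, hpK⟩ := h
      have h1 := hK hpK
      rw [mem_closedBall_zero_iff] at h1
      have hpb : p ∈ closedBall x r := by
        rw [mem_closedBall, dist_eq_norm] at hy ⊢
        calc ‖p - x‖ = ‖(y - x) + (p - y)‖ := by congr 1; abel
          _ ≤ ‖y - x‖ + ‖p - y‖ := norm_add_le _ _
          _ ≤ r := by linarith
      exact mem_iUnion₂.2 ⟨p, hE.mem_toFinset.2 ⟨hp, hpb⟩, hpK⟩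
    · right
      push Not at h
      obtain ⟨i, z, hz⟩ := hno y hy h
      refine mem_iUnion₂.2 ⟨i, Finset.mem_univ i, ?_⟩
      rw [hB]
      exact ⟨hy, z, hz⟩
  have hvol : ∀ p : Plane, volume {y : Plane | p - y ∈ K} ≤ ENNReal.ofReal A := by
    intro p
    have h1 : volume ((fun y : Plane => p - y) ⁻¹' K) = volume K :=
      (Measure.measurePreserving_sub_left volume p).measure_preimage hKm.nullMeasurableSet
    exact (le_of_eq h1).trans hKv.le
  have h1 : volume (⋃ p ∈ hE.toFinset, {y : Plane | p - y ∈ K}) ≤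
      ENNReal.ofReal (r ^ 2 / 4) := by
    calc volume (⋃ p ∈ hE.toFinset, {y : Plane | p - y ∈ K})
        ≤ ∑ p ∈ hE.toFinset, volume {y : Plane | p - y ∈ K} := measure_biUnion_finset_le _ _
      _ ≤ ∑ p ∈ hE.toFinset, ENNReal.ofReal A := Finset.sum_le_sum fun p _ => hvol p
      _ = ENNReal.ofReal (((E ∩ closedBall x r).ncard : ℝ) * A) := by
          have hc := ncard_eq_toFinset_card _ hE
          rw [Finset.sum_const, nsmul_eq_mul, ENNReal.ofReal_mul (by positivity),
            ENNReal.ofReal_natCast, ← hc]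
      _ ≤ ENNReal.ofReal (r ^ 2 / 4) := by
          apply ENNReal.ofReal_le_ofReal
          calc ((E ∩ closedBall x r).ncard : ℝ) * A ≤ r ^ 2 / (4 * A) * A :=
                mul_le_mul_of_nonneg_right hEn hA.le
            _ = r ^ 2 / 4 := by field_simp
  have h2 : volume (⋃ i ∈ (Finset.univ : Finset ι), B i) ≤
      ENNReal.ofReal (13 / 8 * (r / 2) ^ 2) := by
    calc volume (⋃ i ∈ (Finset.univ : Finset ι), B i)
        ≤ ∑ i, volume (B i) := measure_biUnion_finset_le _ _
      _ ≤ ∑ i : ι, ENNReal.ofReal (13 * (1 / (8 * q)) * (r / 2) ^ 2) :=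
          Finset.sum_le_sum fun i _ => hBv i
      _ = ENNReal.ofReal ((Fintype.card ι : ℝ) * (13 * (1 / (8 * q)) * (r / 2) ^ 2)) := by
          rw [Finset.sum_const, nsmul_eq_mul, Finset.card_univ,
            ENNReal.ofReal_mul (p := (Fintype.card ι : ℝ)) (by positivity),
            ENNReal.ofReal_natCast]
      _ ≤ ENNReal.ofReal (13 / 8 * (r / 2) ^ 2) := by
          apply ENNReal.ofReal_le_ofReal
          calc (Fintype.card ι : ℝ) * (13 * (1 / (8 * q)) * (r / 2) ^ 2)
              ≤ q * (13 * (1 / (8 * q)) * (r / 2) ^ 2) :=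
                mul_le_mul_of_nonneg_right hq' (by positivity)
            _ = 13 / 8 * (r / 2) ^ 2 := by field_simp
  have hmain : volume (closedBall x (r / 2)) ≤
      ENNReal.ofReal (r ^ 2 / 4 + 13 / 8 * (r / 2) ^ 2) := by
    rw [ENNReal.ofReal_add (by positivity) (by positivity)]
    exact (measure_mono hcover).trans ((measure_union_le _ _).trans (add_le_add h1 h2))
  have hball : volume (closedBall x (r / 2)) = ENNReal.ofReal (Real.pi * (r / 2) ^ 2) := by
    rw [EuclideanSpace.volume_closedBall_fin_two, mul_comm, ENNReal.ofReal_mul Real.pi_pos.le,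
      ENNReal.ofReal_pow (by positivity)]
  rw [hball] at hmain
  rw [ENNReal.ofReal_le_ofReal_iff (by positivity)] at hmain
  have h3 : (3.14 : ℝ) < Real.pi := Real.pi_gt_d2
  have h4 : 0 < r ^ 2 := by positivity
  nlinarith

end Pool.Agent.DZ62
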