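import Pool.Agent.H18.Danzer.Rect

/-!
# Danzer's problem and generalized arithmetic progressions: bad phases
-/

set_option autoImplicit false

open Metric Set MeasureTheory

namespace Pool.Agent.DZ62

open Pool.Agent.H18.Danzer

/-- The points `y` of a disk for which `w · (y - c)` is within `d` of an integer. -/
theorem volume_bad (x c w : Plane) {ρ d : ℝ} (hρ : 0 < ρ) (hd : 0 < d) (hd1 : d ≤ 1 / 8)
    (hw : 1 / ρ ≤ ‖w‖) :
    volume {y : Plane | y ∈ closedBall x ρ ∧ ∃ z : ℤ, |dot w (y - c) - z| ≤ d} ≤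
      ENNReal.ofReal (13 * d * ρ ^ 2) := by
  have hW : 0 < ‖w‖ := lt_of_lt_of_le (by positivity) hw
  obtain ⟨W, hWd⟩ : ∃ W, W = ‖w‖ := ⟨_, rfl⟩
  rw [← hWd] at hw hW
  obtain ⟨u, hud⟩ : ∃ u : Plane, u = W⁻¹ • w := ⟨_, rfl⟩
  have hu : ‖u‖ = 1 := by
    rw [hud, norm_smul, Real.norm_of_nonneg (by positivity), ← hWd]
    exact inv_mul_cancel₀ hW.ne'
  have hdot : ∀ v : Plane, dot w v = W * dot u v := by
    intro v
    rw [hud]
    unfold dot
    simp only [PiLp.smul_apply, smul_eq_mul]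
    field_simp
  obtain ⟨t0, ht0⟩ : ∃ t0, t0 = dot w (x - c) := ⟨_, rfl⟩
  obtain ⟨Z, hZ⟩ : ∃ Z : Finset ℤ, Z = Finset.Icc ⌈t0 - W * ρ - d⌉ ⌊t0 + W * ρ + d⌋ := ⟨_, rfl⟩
  have hcard : (Z.card : ℝ) ≤ 2 * W * ρ + 5 / 4 := by
    rw [hZ, Int.card_Icc]
    have h1 := Int.floor_le (t0 + W * ρ + d)
    have h2 := Int.le_ceil (t0 - W * ρ - d)
    have h3 : ((⌊t0 + W * ρ + d⌋ + 1 - ⌈t0 - W * ρ - d⌉ : ℤ) : ℝ) ≤ 2 * W * ρ + 5 / 4 := by
      push_cast
      nlinarith
    have h4 : (0 : ℝ) ≤ 2 * W * ρ + 5 / 4 := by positivity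
    rcases le_total 0 (⌊t0 + W * ρ + d⌋ + 1 - ⌈t0 - W * ρ - d⌉) with h5 | h5
    · have h6 : (((⌊t0 + W * ρ + d⌋ + 1 - ⌈t0 - W * ρ - d⌉).toNat : ℤ) : ℝ) =
          ((⌊t0 + W * ρ + d⌋ + 1 - ⌈t0 - W * ρ - d⌉ : ℤ) : ℝ) := by
        rw [Int.toNat_of_nonneg h5]
      have h7 : (((⌊t0 + W * ρ + d⌋ + 1 - ⌈t0 - W * ρ - d⌉).toNat : ℕ) : ℝ) =
          (((⌊t0 + W * ρ + d⌋ + 1 - ⌈t0 - W * ρ - d⌉).toNat : ℤ) : ℝ) := by
        norm_cast
      rw [h7, h6]
      exact h3
    · rw [Int.toNat_of_nonpos h5]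
      simpa using h4
  have hsub : {y : Plane | y ∈ closedBall x ρ ∧ ∃ z : ℤ, |dot w (y - c) - z| ≤ d} ⊆
      ⋃ z ∈ Z, box u ((z - d) / W + dot u c) ((z + d) / W + dot u c)
        (wedge u x - ρ) (wedge u x + ρ) := by
    rintro y ⟨hy, z, hz⟩
    rw [mem_closedBall, dist_eq_norm] at hy
    have h1 : |dot w (y - x)| ≤ W * ρ := by
      refine (abs_dot_le w (y - x)).trans ?_
      rw [← hWd]
      exact mul_le_mul_of_nonneg_left hy hW.le
    have h2 : dot w (y - c) = t0 + dot w (y - x) := by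
      rw [ht0, dot_sub_right, dot_sub_right, dot_sub_right]
      ring
    have h3 := abs_le.1 h1
    have h4 := abs_le.1 hz
    have hzZ : z ∈ Z := by
      rw [hZ, Finset.mem_Icc]
      constructor
      · rw [Int.ceil_le]
        linarith [h3.1, h4.2]
      · rw [Int.le_floor]
        linarith [h3.2, h4.1]
    refine mem_biUnion (x := z) hzZ ?_
    have h5 : W * (dot u y - dot u c) = dot w (y - c) := by
      rw [hdot, dot_sub_right]
    have h6 : |wedge u (y - x)| ≤ ρ := by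
      refine (abs_wedge_le u (y - x)).trans ?_
      rw [hu, one_mul]
      exact hy
    rw [wedge_sub_right'] at h6
    have h7 := abs_le.1 h6
    refine ⟨⟨?_, ?_⟩, ⟨by linarith [h7.1], by linarith [h7.2]⟩⟩
    · have h8 : (z - d) / W ≤ dot u y - dot u c := by
        rw [div_le_iff₀ hW]
        nlinarith [h4.1]
      linarith
    · have h8 : dot u y - dot u c ≤ (z + d) / W := by
        rw [le_div_iff₀ hW]
        nlinarith [h4.2]
      linarith
  refine (measure_mono hsub).trans ((measure_biUnion_finset_le _ _).trans ?_)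
  have hbox : ∀ z : ℤ, volume (box u ((z - d) / W + dot u c) ((z + d) / W + dot u c)
      (wedge u x - ρ) (wedge u x + ρ)) = ENNReal.ofReal (4 * d * ρ / W) := by
    intro z
    rw [volume_box u hu, ← ENNReal.ofReal_mul]
    · congr 1
      field_simp
      ring
    · have h1 : (z + d) / W + dot u c - ((z - d) / W + dot u c) = 2 * d / W := by
        field_simp
        ring
      rw [h1]
      positivity
  rw [Finset.sum_congr rfl fun z _ => hbox z, Finset.sum_const, nsmul_eq_mul]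
  have hcast : ((Z.card : ℕ) : ENNReal) = ENNReal.ofReal (Z.card : ℝ) := by
    rw [ENNReal.ofReal_natCast]
  rw [hcast, ← ENNReal.ofReal_mul (by positivity)]
  apply ENNReal.ofReal_le_ofReal
  have h1 : (Z.card : ℝ) * (4 * d * ρ / W) ≤ (2 * W * ρ + 5 / 4) * (4 * d * ρ / W) :=
    mul_le_mul_of_nonneg_right hcard (by positivity)
  have h2 : (2 * W * ρ + 5 / 4) * (4 * d * ρ / W) = 8 * d * ρ ^ 2 + 5 * d * ρ * (1 / W) := by
    field_simp
    ring
  have h3 : 1 / W ≤ ρ := by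
    rw [div_le_iff₀ hW]
    rw [div_le_iff₀ hρ] at hw
    linarith
  have h4 : 5 * d * ρ * (1 / W) ≤ 5 * d * ρ * ρ := mul_le_mul_of_nonneg_left h3 (by positivity)
  nlinarith

end Pool.Agent.DZ62
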