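import Pool.Agent.DZ62.FrameP
import Pool.Agent.DZ62.Phase
import Pool.Agent.DZ62.Centre5

/-!
# Danzer's problem and generalized arithmetic progressions: assembly
-/

set_option autoImplicit false

open Metric Set MeasureTheory

namespace Pool.Agent.DZ62

open Pool.Agent.H18.Danzer Pool.Agent.FS32

/-- A good centre: outside all bad sets and such that the translate of `K` misses `E`. -/
theorem exists_centre {ι : Type*} [Fintype ι] (x : Plane) {r A ρ : ℝ} (hr : 0 < r) (hA : 0 < A)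
    (hρ : ρ ≤ r / 2) (K E : Set Plane) (hK : K ⊆ closedBall 0 ρ) (hKm : MeasurableSet K)
    (hKv : volume K = ENNReal.ofReal A) (hE : (E ∩ closedBall x r).Finite)
    (hEn : ((E ∩ closedBall x r).ncard : ℝ) ≤ r ^ 2 / (4 * A)) (c w : ι → Plane) {q : ℝ}
    (hq : 1 ≤ q) (hq' : (Fintype.card ι : ℝ) ≤ q) (hw : ∀ i, 1 / (r / 2) ≤ ‖w i‖) :
    ∃ y ∈ closedBall x (r / 2), (∀ p ∈ E, p - y ∉ K) ∧
      ∀ i, ∀ z : ℤ, 1 / (8 * q) < |dot (w i) (y - c i) - z| := by
  exact exists_centre5 x hr hA hρ K E hK hKm hKv hE hEn c w hq hq' hw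

end Pool.Agent.DZ62
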