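import Pool.Agent.DZ62.FrameP58

/-!
# Danzer's problem and generalized arithmetic progressions: a common frame

The induction of `FS32/Frame` for arbitrary wide sets of vectors.
-/

set_option autoImplicit false

open Metric Set MeasureTheory

namespace Pool.Agent.DZ62

open Pool.Agent.H18.Danzer Pool.Agent.FS32

theorem frameP (k : ℕ) : ∀ (P : Fin k → Set Plane) (V η C : ℝ) (e : Plane), 0 < V → 0 < η →
    η ≤ V → 0 < C → η ≤ C ^ 2 → ‖e‖ = 1 → (∀ i, Wide (P i) V) →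
    ∃ (u : Plane) (M : ℝ), ‖u‖ = 1 ∧ C ≤ M ∧ M ≤ C * (36 * V / η) ^ (2 ^ k - 1) ∧
      (|dot u (C • e)| ≤ M ∧ |wedge u (C • e)| ≤ η / M) ∧
      ∀ i, ∃ w ∈ P i, |dot u w| ≤ M ∧ |wedge u w| ≤ η / M :=
  frameP_main k

/-- The frame for `k + 1` wide sets, with a better start. -/
theorem frameQ (k : ℕ) (P : Fin (k + 1) → Set Plane) (L η : ℝ) (hL : 0 < L) (hη : 0 < η)
    (hηL : η ≤ L ^ 2) (hP : ∀ i, Wide (P i) (L ^ 2)) (h0 : ∀ i, (0 : Plane) ∉ P i) :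
    ∃ (u : Plane) (M : ℝ), ‖u‖ = 1 ∧ 2 * L ≤ M ∧ M ≤ 2 * L * (36 * L ^ 2 / η) ^ (2 ^ k - 1) ∧
      ∀ i, ∃ w ∈ P i, |dot u w| ≤ M ∧ |wedge u w| ≤ η / M := by
  have hu0 : ‖(EuclideanSpace.single 0 1 : Plane)‖ = 1 := by simp
  have hs2 : Real.sqrt 2 * Real.sqrt 2 = 2 := Real.mul_self_sqrt (by norm_num)
  have hs0 : 0 < Real.sqrt 2 := Real.sqrt_pos.2 (by norm_num)
  obtain ⟨w₀, hw₀, h1, h2⟩ := hP 0 _ hu0 (Real.sqrt 2 * L) (Real.sqrt 2 * L)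
    (mul_pos hs0 hL) (mul_pos hs0 hL) (by
      have : Real.sqrt 2 * L * (Real.sqrt 2 * L) = 2 * L ^ 2 := by
        calc Real.sqrt 2 * L * (Real.sqrt 2 * L) = (Real.sqrt 2 * Real.sqrt 2) * L ^ 2 := by ring
          _ = 2 * L ^ 2 := by rw [hs2]
      rw [this]
      nlinarith [sq_pos_of_pos hL])
  have hne : w₀ ≠ 0 := fun h => h0 0 (h ▸ hw₀)
  have hn0 : 0 < ‖w₀‖ := norm_pos_iff.2 hne
  have hle : ‖w₀‖ ≤ 2 * L := by
    apply le_of_sq_le_sq _ (by positivity)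
    rw [norm_sq_frame hu0 w₀]
    have e : (Real.sqrt 2 * L) ^ 2 = 2 * L ^ 2 := by
      calc (Real.sqrt 2 * L) ^ 2 = (Real.sqrt 2 * Real.sqrt 2) * L ^ 2 := by ring
        _ = 2 * L ^ 2 := by rw [hs2]
    have g1 : dot (EuclideanSpace.single 0 1) w₀ ^ 2 ≤ (Real.sqrt 2 * L) ^ 2 := by
      rw [← sq_abs]; exact pow_le_pow_left₀ (abs_nonneg _) h1.le 2
    have g2 : wedge (EuclideanSpace.single 0 1) w₀ ^ 2 ≤ (Real.sqrt 2 * L) ^ 2 := by
      rw [← sq_abs]; exact pow_le_pow_left₀ (abs_nonneg _) h2.le 2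
    rw [e] at g1 g2
    nlinarith
  have hC : (0 : ℝ) < 2 * L := by linarith
  have he : ‖((1 / ‖w₀‖) • w₀ : Plane)‖ = 1 := by
    rw [norm_smul, Real.norm_of_nonneg (by positivity)]
    field_simp
  obtain ⟨u, M, hu, hM1, hM2, ⟨hd, hw⟩, hi⟩ := frameP k (fun i => P i.succ) (L ^ 2) η (2 * L)
    ((1 / ‖w₀‖) • w₀) (by positivity) hη hηL hC (by nlinarith) he (fun i => hP i.succ)
  have hM0 : 0 < M := lt_of_lt_of_le hC hM1
  refine ⟨u, M, hu, hM1, hM2, fun i => ?_⟩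
  refine Fin.cases ?_ (fun j => ?_) i
  · refine ⟨w₀, hw₀, ?_, ?_⟩
    · have e : dot u w₀ = ‖w₀‖ / (2 * L) * dot u ((2 * L) • ((1 / ‖w₀‖) • w₀)) := by
        unfold dot
        simp
        field_simp
      rw [e, abs_mul, abs_of_nonneg (by positivity)]
      calc ‖w₀‖ / (2 * L) * |dot u ((2 * L) • ((1 / ‖w₀‖) • w₀))|
          ≤ 1 * M := mul_le_mul ((div_le_one hC).2 hle) hd (abs_nonneg _) zero_le_one
        _ = M := one_mul M
    · have e : wedge u w₀ = ‖w₀‖ / (2 * L) * wedge u ((2 * L) • ((1 / ‖w₀‖) • w₀)) := by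
        unfold wedge
        simp
        field_simp
      rw [e, abs_mul, abs_of_nonneg (by positivity)]
      calc ‖w₀‖ / (2 * L) * |wedge u ((2 * L) • ((1 / ‖w₀‖) • w₀))|
          ≤ 1 * (η / M) := mul_le_mul ((div_le_one hC).2 hle) hw (abs_nonneg _) zero_le_one
        _ = η / M := one_mul _
  · exact hi j

end Pool.Agent.DZ62
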