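import Pool.Agent.DZ62.Dual

/-!
# Danzer's problem and generalized arithmetic progressions: the induction for a common frame

The induction of `FS32/Frame` for arbitrary wide sets of vectors, at any scale.
-/

set_option autoImplicit false

open Metric Set MeasureTheory

namespace Pool.Agent.DZ62

open Pool.Agent.H18.Danzer Pool.Agent.FS32

/-- Rotating the frame to a new vector, at any scale. -/
theorem rotateS {u v w : Plane} (hu : ‖u‖ = 1) {M η V : ℝ} (hM0 : 0 < M) (hη : 0 < η)
    (hηM : η ≤ M ^ 2) (hηV : η ≤ V) (hv0 : 0 < ‖v‖) (hvM : M < ‖v‖)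
    (hvle : ‖v‖ ≤ 9 * V * M / η) (hY : |wedge u v| ≤ η / (4 * M)) (h2 : |dot u w| ≤ M)
    (h3 : |wedge u w| ≤ η ^ 2 / (36 * V) / M) :
    |dot ((1 / ‖v‖) • v) w| ≤ 2 * ‖v‖ ∧ |wedge ((1 / ‖v‖) • v) w| ≤ η / (2 * ‖v‖) := by
  have hV0 : 0 < V := lt_of_lt_of_le hη hηV
  have hdot : dot ((1 / ‖v‖) • v) w = dot v w / ‖v‖ := by
    unfold dot; simp; ring
  have hwed : wedge ((1 / ‖v‖) • v) w = wedge v w / ‖v‖ := by
    unfold wedge; simp; ring
  have hη'1 : η ^ 2 / (36 * V) ≤ M ^ 2 := by
    rw [div_le_iff₀ (by positivity)]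
    have g1 : η ^ 2 ≤ M ^ 2 * V := by
      rw [sq η]
      exact mul_le_mul hηM hηV hη.le (by positivity)
    have g2 : 0 ≤ M ^ 2 * V := by positivity
    linarith
  refine ⟨?_, ?_⟩
  · have hwle : ‖w‖ ≤ 2 * M := by
      apply le_of_sq_le_sq _ (by positivity)
      rw [norm_sq_frame hu w]
      have g1 : dot u w ^ 2 ≤ M ^ 2 := by
        rw [← sq_abs]; exact pow_le_pow_left₀ (abs_nonneg _) h2 2
      have g2 : wedge u w ^ 2 ≤ M ^ 2 := by
        rw [← sq_abs]
        refine pow_le_pow_left₀ (abs_nonneg _) (h3.trans ?_) 2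
        rw [div_le_iff₀ hM0, ← sq]
        exact hη'1
      nlinarith
    rw [hdot, abs_div, abs_of_pos hv0, div_le_iff₀ hv0]
    have := abs_dot_le v w
    nlinarith
  · rw [hwed, abs_div, abs_of_pos hv0]
    have hid : wedge v w = dot u v * wedge u w - wedge u v * dot u w := by
      have := wedge_identity u v w
      rw [hu, show dot v u = dot u v by unfold dot; ring] at this
      linarith
    have hle : |wedge v w| ≤ ‖v‖ * (η ^ 2 / (36 * V) / M) + η / (4 * M) * M := by
      rw [hid]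
      refine (abs_sub _ _).trans ?_
      rw [abs_mul, abs_mul]
      have g1 : |dot u v| ≤ ‖v‖ := by
        have := abs_dot_le u v
        rwa [hu, one_mul] at this
      exact add_le_add (mul_le_mul g1 h3 (abs_nonneg _) hv0.le)
        (mul_le_mul hY h2 (abs_nonneg _) (by positivity))
    rw [div_le_div_iff₀ hv0 (by positivity)]
    have e1 : η / (4 * M) * M = η / 4 := by field_simp
    rw [e1] at hle
    have e2 : ‖v‖ * (η ^ 2 / (36 * V) / M) ≤ η / 4 := by
      calc ‖v‖ * (η ^ 2 / (36 * V) / M) ≤ 9 * V * M / η * (η ^ 2 / (36 * V) / M) :=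
            mul_le_mul_of_nonneg_right hvle (by positivity)
        _ = η / 4 := by field_simp; ring
    nlinarith

theorem frameP_main (k : ℕ) : ∀ (P : Fin k → Set Plane) (V η C : ℝ) (e : Plane), 0 < V → 0 < η →
    η ≤ V → 0 < C → η ≤ C ^ 2 → ‖e‖ = 1 → (∀ i, Wide (P i) V) →
    ∃ (u : Plane) (M : ℝ), ‖u‖ = 1 ∧ C ≤ M ∧ M ≤ C * (36 * V / η) ^ (2 ^ k - 1) ∧
      (|dot u (C • e)| ≤ M ∧ |wedge u (C • e)| ≤ η / M) ∧
      ∀ i, ∃ w ∈ P i, |dot u w| ≤ M ∧ |wedge u w| ≤ η / M := by
  induction k with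
  | zero =>
    intro P V η C e _ hη _ hC _ he _
    have h1 : dot e (C • e) = C := by
      have : dot e (C • e) = C * dot e e := by unfold dot; simp; ring
      rw [this, dot_self, he]; ring
    have h2 : wedge e (C • e) = 0 := by unfold wedge; simp; ring
    refine ⟨e, C, he, le_rfl, by simp, ⟨?_, ?_⟩, fun i => i.elim0⟩
    · rw [h1, abs_of_nonneg hC.le]
    · rw [h2, abs_zero]; positivity
  | succ k ih =>
    intro P V η C e hV0 hη hηV hC0 hηC he hP
    have hη'0 : 0 < η ^ 2 / (36 * V) := by positivity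
    have hη'η : η ^ 2 / (36 * V) ≤ η := by
      rw [div_le_iff₀ (by positivity)]
      nlinarith
    obtain ⟨u, M, hu, hM, hMle, ⟨he1, he2⟩, hv⟩ := ih (fun i => P i.castSucc) V
      (η ^ 2 / (36 * V)) C e hV0 hη'0 (hη'η.trans hηV) hC0 (hη'η.trans hηC) he (fun i => hP _)
    have hM0 : 0 < M := lt_of_lt_of_le hC0 hM
    have hηM : η ≤ M ^ 2 := hηC.trans (pow_le_pow_left₀ hC0.le hM 2)
    have hdM : η ^ 2 / (36 * V) / M ≤ η / M := div_le_div_of_nonneg_right hη'η hM0.le
    obtain ⟨Q, hQ⟩ : ∃ Q : ℝ, Q = 36 * V / η := ⟨_, rfl⟩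
    have hQ1 : 1 ≤ Q := by
      rw [hQ, le_div_iff₀ hη]; linarith
    have hQ' : 36 * V / (η ^ 2 / (36 * V)) = Q ^ 2 := by
      rw [hQ]; field_simp
    have h2k : 1 ≤ 2 ^ k := Nat.one_le_two_pow
    have hMle' : M ≤ C * Q ^ (2 ^ (k + 1) - 2) := by
      rw [hQ', ← pow_mul] at hMle
      have e : 2 * (2 ^ k - 1) = 2 ^ (k + 1) - 2 := by rw [pow_succ]; omega
      rwa [e] at hMle
    have hexp : 2 ^ (k + 1) - 1 = (2 ^ (k + 1) - 2) + 1 := by
      have : 2 ≤ 2 ^ (k + 1) := by rw [pow_succ]; omega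
      omega
    rw [← hQ]
    obtain ⟨v, hvP, hX, hY⟩ := hP (Fin.last k) u hu (8 * V * M / η) (η / (4 * M))
      (by positivity) (by positivity) (by
        have e : 8 * V * M / η * (η / (4 * M)) = 2 * V := by field_simp; ring
        rw [e]
        linarith)
    by_cases hcase : |dot u v| ≤ M
    · refine ⟨u, M, hu, hM, ?_, ⟨he1, he2.trans hdM⟩, ?_⟩
      · refine hMle'.trans ?_
        exact mul_le_mul_of_nonneg_left (pow_le_pow_right₀ hQ1 (by omega)) hC0.le
      · intro i
        refine Fin.lastCases ?_ (fun i => ?_) i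
        · refine ⟨v, hvP, hcase, hY.le.trans ?_⟩
          rw [div_le_div_iff₀ (by positivity) hM0]
          nlinarith
        · obtain ⟨w, h1, h2, h3⟩ := hv i
          exact ⟨w, h1, h2, h3.trans hdM⟩
    · push Not at hcase
      have hvM : M < ‖v‖ := by
        have := abs_dot_le u v
        rw [hu, one_mul] at this
        linarith
      have hv0 : 0 < ‖v‖ := by linarith
      have hvle : ‖v‖ ≤ 9 * V * M / η := by
        apply le_of_sq_le_sq _ (by positivity)
        rw [norm_sq_frame hu v]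
        have h1 : dot u v ^ 2 ≤ (8 * V * M / η) ^ 2 := by
          rw [← sq_abs]
          exact pow_le_pow_left₀ (abs_nonneg _) hX.le 2
        have h2 : wedge u v ^ 2 ≤ (V * M / η) ^ 2 := by
          rw [← sq_abs]
          refine pow_le_pow_left₀ (abs_nonneg _) (hY.le.trans ?_) 2
          rw [div_le_div_iff₀ (by positivity) hη]
          have e1 : η * η ≤ V * M ^ 2 := mul_le_mul hηV hηM hη.le hV0.le
          have e3 : 0 ≤ V * M ^ 2 := by positivity
          have e4 : V * M * (4 * M) = 4 * (V * M ^ 2) := by ring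
          rw [e4]
          linarith
        have e : (9 * V * M / η) ^ 2 = (8 * V * M / η) ^ 2 + 17 * (V * M / η) ^ 2 := by ring
        rw [e]
        nlinarith [sq_nonneg (V * M / η)]
      have hrot := fun (w : Plane) (h2 : |dot u w| ≤ M) (h3 : |wedge u w| ≤ η ^ 2 / (36 * V) / M) =>
        rotateS (w := w) hu hM0 hη hηM hηV hv0 hvM hvle hY.le h2 h3
      refine ⟨(1 / ‖v‖) • v, 2 * ‖v‖, ?_, by linarith, ?_, hrot _ he1 he2, ?_⟩
      · rw [norm_smul, Real.norm_of_nonneg (by positivity)]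
        field_simp
      · have h18 : 18 * V / η ≤ Q := by
          rw [hQ, div_le_div_iff₀ hη hη]; nlinarith
        calc 2 * ‖v‖ ≤ 2 * (9 * V * M / η) := by linarith
          _ = (18 * V / η) * M := by ring
          _ ≤ Q * (C * Q ^ (2 ^ (k + 1) - 2)) :=
            mul_le_mul h18 hMle' hM0.le (by linarith)
          _ = C * Q ^ (2 ^ (k + 1) - 1) := by rw [hexp, pow_succ]; ring
      · intro i
        refine Fin.lastCases ?_ (fun i => ?_) i
        · refine ⟨v, hvP, ?_, ?_⟩
          · have hdot : dot ((1 / ‖v‖) • v) v = dot v v / ‖v‖ := by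
              unfold dot; simp; ring
            rw [hdot, dot_self, abs_of_nonneg (by positivity), div_le_iff₀ hv0]
            nlinarith
          · have hwed : wedge ((1 / ‖v‖) • v) v = wedge v v / ‖v‖ := by
              unfold wedge; simp; ring
            rw [hwed, wedge_self, zero_div, abs_zero]; positivity
        · obtain ⟨w, h1, h2, h3⟩ := hv i
          exact ⟨w, h1, hrot _ h2 h3⟩

end Pool.Agent.DZ62
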